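import Mathlib

/-!
# Neutrality of the atoms in the lattice of varieties of implication zroupoids

The atom `ZM` is a neutral element of the lattice of varieties of implication zroupoids, and the atoms
`SL` and `BA` are not neutral.
-/

set_option autoImplicit false

namespace Pool.Agent.Results.MP_be65b5_al.NeutralAtoms

/-- An implication zroupoid: an algebra `⟨A; →, 0⟩` with the identities
`(x → y) → z ≈ ((z' → x) → (y → z)')'` and `0'' ≈ 0`, where `u' = u → 0`. -/
structure IZ : Type 1 where
  /-- the carrier -/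
  carrier : Type
  /-- the operation `→` -/
  imp : carrier → carrier → carrier
  /-- the constant `0` -/
  zero : carrier
  /-- `(x → y) → z ≈ ((z' → x) → (y → z)')'` -/
  ax : ∀ x y z : carrier,
    imp (imp x y) z = imp (imp (imp (imp z zero) x) (imp (imp y z) zero)) zero
  /-- `0'' ≈ 0` -/
  ax0 : imp (imp zero zero) zero = zero

/-- Terms in the variables `x_0, x_1, …` -/
inductive Term
  | var (n : ℕ)
  | zero
  | imp (s t : Term)

/-- The value of a term under a valuation of the variables. -/
def Term.eval (A : IZ) (v : ℕ → A.carrier) : Term → A.carrier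
  | .var n => v n
  | .zero => A.zero
  | .imp s t => A.imp (s.eval A v) (t.eval A v)

/-- `A` satisfies the identity `s ≈ t`. -/
def Sat (A : IZ) (e : Term × Term) : Prop := ∀ v : ℕ → A.carrier, e.1.eval A v = e.2.eval A v

/-- A variety of implication zroupoids: the class of all implication zroupoids which satisfy all the
identities of some set `E`. -/
def IsVariety (X : Set IZ) : Prop := ∃ E : Set (Term × Term), ∀ A, A ∈ X ↔ ∀ e ∈ E, Sat A e

/-- The varieties of implication zroupoids, ordered by inclusion. -/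
abbrev Variety : Type 1 := {X : Set IZ // IsVariety X}

/-- The join: the class of all implication zroupoids that satisfy all identities which hold in all
members of `X` and in all members of `Y` (the variety generated by the union). -/
def join (X Y : Variety) : Variety :=
  ⟨{A | ∀ e, (∀ B ∈ X.1, Sat B e) → (∀ B ∈ Y.1, Sat B e) → Sat A e},
    {e | (∀ B ∈ X.1, Sat B e) ∧ ∀ B ∈ Y.1, Sat B e}, fun _ =>
      ⟨fun h e he => h e he.1 he.2, fun h e h1 h2 => h e ⟨h1, h2⟩⟩⟩

/-- The meet: the intersection. -/
def meet (X Y : Variety) : Variety :=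
  ⟨X.1 ∩ Y.1, by
    obtain ⟨E, hE⟩ := X.2
    obtain ⟨F, hF⟩ := Y.2
    refine ⟨E ∪ F, fun A => ?_⟩
    rw [Set.mem_inter_iff, hE, hF]
    constructor
    · rintro ⟨h1, h2⟩ e (he | he)
      · exact h1 e he
      · exact h2 e he
    · intro h
      exact ⟨fun e he => h e (Or.inl he), fun e he => h e (Or.inr he)⟩⟩

/-- The lattice of the varieties of implication zroupoids, ordered by inclusion. -/
instance : Lattice Variety where
  sup := join
  inf := meet
  le_sup_left X Y A hA e h1 _ := h1 A hA
  le_sup_right X Y A hA e _ h2 := h2 A hA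
  sup_le X Y Z hX hY A hA := by
    obtain ⟨E, hE⟩ := Z.2
    exact (hE A).2 fun e he => hA e (fun B hB => (hE B).1 (hX hB) e he)
      fun B hB => (hE B).1 (hY hB) e he
  inf_le_left X Y A hA := hA.1
  inf_le_right X Y A hA := hA.2
  le_inf X Y Z h1 h2 A hA := ⟨h1 hA, h2 hA⟩

/-- An element `a` of a lattice is neutral if for all `y`, `z` the sublattice generated by `a`, `y`,
`z` is distributive. -/
def Neutral {L : Type*} [Lattice L] (a : L) : Prop :=
  ∀ y z : L, ∀ p ∈ latticeClosure {a, y, z}, ∀ q ∈ latticeClosure {a, y, z},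
    ∀ r ∈ latticeClosure {a, y, z}, p ⊓ (q ⊔ r) = (p ⊓ q) ⊔ (p ⊓ r)

/-- The variety `ZM`: the implication zroupoids that satisfy `x → y ≈ 0`. -/
def ZM : Variety :=
  ⟨{A | ∀ a b : A.carrier, A.imp a b = A.zero}, {(.imp (.var 0) (.var 1), .zero)}, fun A => by
    constructor
    · intro h e he
      rw [Set.mem_singleton_iff] at he
      subst he
      intro v
      exact h _ _
    · intro h a b
      exact h _ rfl (fun n => if n = 0 then a else b)⟩

/-- The variety `SL`: the implication zroupoids that satisfy `(x → y) → z ≈ x → (y → z)`,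
`x → x ≈ x` and `x → y ≈ y → x`. -/
def SL : Variety :=
  ⟨{A | (∀ a b c : A.carrier, A.imp (A.imp a b) c = A.imp a (A.imp b c)) ∧
      (∀ a : A.carrier, A.imp a a = a) ∧ ∀ a b : A.carrier, A.imp a b = A.imp b a},
    {(.imp (.imp (.var 0) (.var 1)) (.var 2), .imp (.var 0) (.imp (.var 1) (.var 2))),
      (.imp (.var 0) (.var 0), .var 0), (.imp (.var 0) (.var 1), .imp (.var 1) (.var 0))},
    fun A => by
    constructor
    · rintro ⟨h1, h2, h3⟩ e he
      simp only [Set.mem_insert_iff, Set.mem_singleton_iff] at he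
      rcases he with rfl | rfl | rfl
      · intro v
        exact h1 _ _ _
      · intro v
        exact h2 _
      · intro v
        exact h3 _ _
    · intro h
      refine ⟨fun a b c => ?_, fun a => ?_, fun a b => ?_⟩
      · exact h _ (Or.inl rfl) (fun n => if n = 0 then a else if n = 1 then b else c)
      · exact h _ (Or.inr (Or.inl rfl)) (fun _ => a)
      · exact h _ (Or.inr (Or.inr rfl)) (fun n => if n = 0 then a else b)⟩

/-! ### The variety `BA` -/

/-- the two-element Boolean algebra, as an implication zroupoid -/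
def boolTwo : IZ where
  carrier := Bool
  imp a b := !a || b
  zero := false
  ax := by decide
  ax0 := by decide

/-- `A` is a Boolean algebra, viewed as an implication zroupoid. -/
def IsBoolean (A : IZ) : Prop :=
  ∃ B : BooleanAlgebra A.carrier, (∀ a b : A.carrier, A.imp a b = B.sup (B.compl a) b) ∧
    A.zero = B.bot

theorem eval_hom {A B : IZ} (f : A.carrier → B.carrier) (h0 : f A.zero = B.zero)
    (h : ∀ a b, f (A.imp a b) = B.imp (f a) (f b)) (v : ℕ → A.carrier) (t : Term) :
    f (t.eval A v) = t.eval B (fun n => f (v n)) := by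
  induction t with
  | var n => rfl
  | zero => exact h0
  | imp s t hs ht =>
    change f (A.imp _ _) = B.imp _ _
    rw [h, hs, ht]

/-- Boolean algebras satisfy the identities of the two-element one -/
theorem sat_of_isBoolean (A : IZ) (hA : IsBoolean A) (e : Term × Term) (he : Sat boolTwo e) :
    Sat A e := by
  classical
  obtain ⟨B, h1, h2⟩ := hA
  intro v
  by_contra hne
  -- a prime ideal separates two different elements
  have sep : ∀ a b : A.carrier, ¬ B.le a b → ∃ f : A.carrier → Bool, f A.zero = false ∧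
      (∀ a b, f (A.imp a b) = (!f a || f b)) ∧ f a = true ∧ f b = false := by
    intro a b hab
    obtain ⟨J, hJ, hJb, hJa⟩ := DistribLattice.prime_ideal_of_disjoint_filter_ideal
      (F := Order.PFilter.principal a) (I := Order.Ideal.principal b) (by
        rw [Set.disjoint_left]
        intro c hc hc'
        exact hab (le_trans (Order.PFilter.mem_principal.1 hc) (Order.Ideal.mem_principal.1 hc')))
    refine ⟨fun c => decide (c ∉ J), ?_, ?_, ?_, ?_⟩
    · rw [decide_eq_false_iff_not, not_not, h2]
      exact J.bot_mem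
    · intro c d
      have h3 : A.imp c d = cᶜ ⊔ d := h1 c d
      rw [h3]
      have h4 : cᶜ ⊔ d ∈ J ↔ cᶜ ∈ J ∧ d ∈ J := Order.Ideal.sup_mem_iff
      have h5 : cᶜ ∈ J ↔ c ∉ J := by
        constructor
        · intro h6 h7
          apply hJ.1.top_notMem
          have := Order.Ideal.sup_mem h7 h6
          rwa [sup_compl_eq_top] at this
        · intro h6
          exact (hJ.mem_or_compl_mem (x := c)).resolve_left h6
      by_cases hc : c ∈ J <;> by_cases hd : d ∈ J <;> simp [h4, h5, hc, hd]
    · rw [decide_eq_true_iff]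
      intro h
      exact Set.disjoint_left.1 hJa (Order.PFilter.mem_principal.2 le_rfl) h
    · rw [decide_eq_false_iff_not, not_not]
      exact hJb (Order.Ideal.mem_principal.2 le_rfl)
  have key : ∀ a b : A.carrier, (∀ f : A.carrier → Bool, f A.zero = false →
      (∀ a b, f (A.imp a b) = (!f a || f b)) → f a = f b) → B.le a b := by
    intro a b h
    by_contra hab
    obtain ⟨f, hf0, hf, hfa, hfb⟩ := sep a b hab
    have := h f hf0 hf
    rw [hfa, hfb] at this
    exact Bool.noConfusion this
  have hv : ∀ f : A.carrier → Bool, f A.zero = false →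
      (∀ a b, f (A.imp a b) = (!f a || f b)) → f (e.1.eval A v) = f (e.2.eval A v) := by
    intro f hf0 hf
    have h3 := eval_hom (A := A) (B := boolTwo) f hf0 hf v e.1
    have h4 := eval_hom (A := A) (B := boolTwo) f hf0 hf v e.2
    rw [h3, h4]
    exact he _
  exact hne (B.le_antisymm _ _ (key _ _ hv) (key _ _ fun f h3 h4 => (hv f h3 h4).symm))

/-- a valuation with three given values -/
def val3 {A : Type} (a b c : A) : ℕ → A := fun n => if n = 0 then a else if n = 1 then b else c

section
open Term

theorem isBoolean_of_sat (A : IZ) (hA : ∀ e, Sat boolTwo e → Sat A e) : IsBoolean A := by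
  -- identities in at most three variables
  have id3 : ∀ s t : Term, Sat boolTwo (s, t) → ∀ a b c : A.carrier,
      s.eval A (val3 a b c) = t.eval A (val3 a b c) := fun s t h a b c => hA (s, t) h _
  let i := A.imp
  let o := A.zero
  have top_imp : ∀ a, i (i o o) a = a := fun a =>
    id3 (imp (imp zero zero) (var 0)) (var 0) (fun v => by
      change (!(!false || false) || v 0) = v 0
      cases v 0 <;> rfl) a a a
  have refl : ∀ a, i a a = i o o := fun a =>
    id3 (imp (var 0) (var 0)) (imp zero zero) (fun v => by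
      change (!(v 0) || v 0) = (!false || false)
      cases v 0 <;> rfl) a a a
  have trans : ∀ a b c, i a b = i o o → i b c = i o o → i a c = i o o := by
    intro a b c h1 h2
    have h := id3 (imp (imp (var 0) (var 1)) (imp (imp (var 1) (var 2)) (imp (var 0) (var 2))))
      (imp zero zero) (fun v => by
        change (!(!(v 0) || v 1) || (!(!(v 1) || v 2) || (!(v 0) || v 2))) = (!false || false)
        cases v 0 <;> cases v 1 <;> cases v 2 <;> rfl) a b c
    change i (i a b) (i (i b c) (i a c)) = i o o at h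
    rw [h1, h2, top_imp, top_imp] at h
    exact h
  have antisymm : ∀ a b, i a b = i o o → i b a = i o o → a = b := by
    intro a b h1 h2
    have h := id3 (imp (imp (var 0) (var 1)) (var 1)) (imp (imp (var 1) (var 0)) (var 0))
      (fun v => by
        change (!(!(v 0) || v 1) || v 1) = (!(!(v 1) || v 0) || v 0)
        cases v 0 <;> cases v 1 <;> rfl) a b a
    change i (i a b) b = i (i b a) a at h
    rw [h1, h2, top_imp, top_imp] at h
    exact h.symm
  refine ⟨
    { le := fun a b => i a b = i o o
      sup := fun a b => i (i a o) b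
      inf := fun a b => i (i a (i b o)) o
      compl := fun a => i a o
      sdiff := fun a b => i (i a b) o
      himp := fun a b => i a b
      top := i o o
      bot := o
      le_refl := refl
      le_trans := trans
      le_antisymm := antisymm
      le_sup_left := fun a b => id3 (imp (var 0) (imp (imp (var 0) zero) (var 1))) (imp zero zero)
        (fun v => by
          change (!(v 0) || (!(!(v 0) || false) || v 1)) = (!false || false)
          cases v 0 <;> cases v 1 <;> rfl) a b a
      le_sup_right := fun a b => id3 (imp (var 1) (imp (imp (var 0) zero) (var 1))) (imp zero zero)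
        (fun v => by
          change (!(v 1) || (!(!(v 0) || false) || v 1)) = (!false || false)
          cases v 0 <;> cases v 1 <;> rfl) a b a
      sup_le := fun a b c h1 h2 => by
        have h := id3 (imp (imp (var 0) (var 2)) (imp (imp (var 1) (var 2))
          (imp (imp (imp (var 0) zero) (var 1)) (var 2)))) (imp zero zero) (fun v => by
            change (!(!(v 0) || v 2) || (!(!(v 1) || v 2) ||
              (!(!(!(v 0) || false) || v 1) || v 2))) = (!false || false)
            cases v 0 <;> cases v 1 <;> cases v 2 <;> rfl) a b c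
        change i (i a c) (i (i b c) (i (i (i a o) b) c)) = i o o at h
        have h1' : i a c = i o o := h1
        have h2' : i b c = i o o := h2
        rw [h1', h2', top_imp, top_imp] at h
        exact h
      inf_le_left := fun a b => id3 (imp (imp (imp (var 0) (imp (var 1) zero)) zero) (var 0))
        (imp zero zero) (fun v => by
          change (!(!(!(v 0) || (!(v 1) || false)) || false) || v 0) = (!false || false)
          cases v 0 <;> cases v 1 <;> rfl) a b a
      inf_le_right := fun a b => id3 (imp (imp (imp (var 0) (imp (var 1) zero)) zero) (var 1))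
        (imp zero zero) (fun v => by
          change (!(!(!(v 0) || (!(v 1) || false)) || false) || v 1) = (!false || false)
          cases v 0 <;> cases v 1 <;> rfl) a b a
      le_inf := fun a b c h1 h2 => by
        have h := id3 (imp (imp (var 0) (var 1)) (imp (imp (var 0) (var 2))
          (imp (var 0) (imp (imp (var 1) (imp (var 2) zero)) zero)))) (imp zero zero) (fun v => by
            change (!(!(v 0) || v 1) || (!(!(v 0) || v 2) ||
              (!(v 0) || (!(!(v 1) || (!(v 2) || false)) || false)))) = (!false || false)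
            cases v 0 <;> cases v 1 <;> cases v 2 <;> rfl) a b c
        change i (i a b) (i (i a c) (i a (i (i b (i c o)) o))) = i o o at h
        have h1' : i a b = i o o := h1
        have h2' : i a c = i o o := h2
        rw [h1', h2', top_imp, top_imp] at h
        exact h
      le_sup_inf := fun a b c => id3
        (imp (imp (imp (imp (imp (var 0) zero) (var 1)) (imp (imp (imp (var 0) zero) (var 2)) zero))
          zero) (imp (imp (var 0) zero) (imp (imp (var 1) (imp (var 2) zero)) zero)))
        (imp zero zero) (fun v => by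
          change (!(!(!(!(!(v 0) || false) || v 1) || (!(!(!(v 0) || false) || v 2) || false)) ||
            false) || (!(!(v 0) || false) || (!(!(v 1) || (!(v 2) || false)) || false))) =
              (!false || false)
          cases v 0 <;> cases v 1 <;> cases v 2 <;> rfl) a b c
      inf_compl_le_bot := fun a => id3
        (imp (imp (imp (var 0) (imp (imp (var 0) zero) zero)) zero) zero)
        (imp zero zero) (fun v => by
          change (!(!(!(v 0) || (!(!(v 0) || false) || false)) || false) || false) =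
            (!false || false)
          cases v 0 <;> rfl) a a a
      top_le_sup_compl := fun a => id3
        (imp (imp zero zero) (imp (imp (var 0) zero) (imp (var 0) zero)))
        (imp zero zero) (fun v => by
          change (!(!false || false) || (!(!(v 0) || false) || (!(v 0) || false))) =
            (!false || false)
          cases v 0 <;> rfl) a a a
      le_top := fun a => id3 (imp (var 0) (imp zero zero)) (imp zero zero) (fun v => by
          change (!(v 0) || (!false || false)) = (!false || false)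
          cases v 0 <;> rfl) a a a
      bot_le := fun a => id3 (imp zero (var 0)) (imp zero zero) (fun v => by
          change (!false || v 0) = (!false || false)
          cases v 0 <;> rfl) a a a
      sdiff_eq := fun a b => id3 (imp (imp (var 0) (var 1)) zero)
        (imp (imp (var 0) (imp (imp (var 1) zero) zero)) zero) (fun v => by
          change (!(!(v 0) || v 1) || false) = (!(!(v 0) || (!(!(v 1) || false) || false)) || false)
          cases v 0 <;> cases v 1 <;> rfl) a b a
      himp_eq := fun a b => id3 (imp (var 0) (var 1))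
        (imp (imp (var 1) zero) (imp (var 0) zero)) (fun v => by
          change (!(v 0) || v 1) = (!(!(v 1) || false) || (!(v 0) || false))
          cases v 0 <;> cases v 1 <;> rfl) a b a }, fun a b => ?_, rfl⟩
  exact id3 (imp (var 0) (var 1)) (imp (imp (imp (var 0) zero) zero) (var 1)) (fun v => by
    change (!(v 0) || v 1) = (!(!(!(v 0) || false) || false) || v 1)
    cases v 0 <;> cases v 1 <;> rfl) a b a

end

/-- The variety `BA` of Boolean algebras, viewed as implication zroupoids via `x → y := xᶜ ⊔ y` and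
the constant `⊥`. -/
def BA : Variety :=
  ⟨{A | IsBoolean A}, {e | Sat boolTwo e}, fun A =>
    ⟨fun h e he => sat_of_isBoolean A h e he, fun h => isBoolean_of_sat A h⟩⟩

/-! ### Varieties that do not contain `ZM` satisfy `x'' ≈ x` -/

section
variable {A : Type} (i : A → A → A) (o : A)
  (h1 : ∀ x y z, i (i x y) z = i (i (i (i z o) x) (i (i y z) o)) o)
  (h2 : i (i o o) o = o)

include h1 h2 in
/-- `x'''' ≈ x''` in every implication zroupoid -/
theorem four (x : A) : i (i (i (i x o) o) o) o = i (i x o) o := by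
  grind (splits := 0) (gen := 12) (ematch := 12)

end

theorem IZ.four (A : IZ) (x : A.carrier) :
    A.imp (A.imp (A.imp (A.imp x A.zero) A.zero) A.zero) A.zero =
      A.imp (A.imp x A.zero) A.zero :=
  NeutralAtoms.four A.imp A.zero A.ax A.ax0 x

/-- the second derivative `x''` -/
def IZ.dd (A : IZ) (x : A.carrier) : A.carrier := A.imp (A.imp x A.zero) A.zero

/-- if every element is of the form `(x → y) → z`, then `x'' = x` -/
theorem two_of_form (A : IZ) (h : ∀ a : A.carrier, ∃ x y z, a = A.imp (A.imp x y) z)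
    (a : A.carrier) : A.dd a = a := by
  have hs : ∀ a : A.carrier, ∃ b, a = A.imp b A.zero := by
    intro a
    obtain ⟨x, y, z, h1⟩ := h a
    exact ⟨_, h1.trans (A.ax x y z)⟩
  obtain ⟨b, hb⟩ := hs a
  obtain ⟨c, hc⟩ := hs b
  rw [hb, hc, IZ.dd, A.four]

/-- the identity `x ≈ t(x)` for a term `t` which is not a variable implies `x'' ≈ x` -/
theorem two_of_term (A : IZ) (t : Term) (ht : ∀ n, t ≠ .var n)
    (h : ∀ a : A.carrier, a = t.eval A (fun _ => a)) (a : A.carrier) : A.dd a = a := by
  apply two_of_form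
  intro a
  cases t with
  | var n => exact absurd rfl (ht n)
  | zero =>
    refine ⟨A.zero, A.zero, A.zero, ?_⟩
    rw [A.ax0]
    exact h a
  | imp p q =>
    have h' : ∀ a : A.carrier, a = A.imp (p.eval A (fun _ => a)) (q.eval A (fun _ => a)) := h
    cases p with
    | var n =>
      refine ⟨a, q.eval A (fun _ => a), q.eval A (fun _ => a), ?_⟩
      have h3 : a = A.imp a (q.eval A (fun _ => a)) := h' a
      rw [← h3, ← h3]
    | zero =>
      refine ⟨A.imp A.zero A.zero, A.zero, q.eval A (fun _ => a), ?_⟩
      rw [A.ax0]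
      exact h' a
    | imp p1 p2 => exact ⟨_, _, _, h' a⟩

/-- a term that is not a variable has the value `0` in the algebras of `ZM` -/
theorem eval_ZM {A : IZ} (hA : A ∈ ZM.1) (t : Term) (ht : ∀ n, t ≠ .var n) (v : ℕ → A.carrier) :
    t.eval A v = A.zero := by
  cases t with
  | var n => exact absurd rfl (ht n)
  | zero => rfl
  | imp p q => exact hA _ _

/-- identities between terms that are not variables hold in `ZM` -/
theorem sat_ZM (s t : Term) (hs : ∀ n, s ≠ .var n) (ht : ∀ n, t ≠ .var n) :
    ∀ B ∈ ZM.1, Sat B (s, t) := fun _ hB v => (eval_ZM hB s hs v).trans (eval_ZM hB t ht v).symm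

/-- the two-element member of `ZM` -/
def zmTwo : IZ where
  carrier := Bool
  imp _ _ := false
  zero := false
  ax _ _ _ := rfl
  ax0 := rfl

/-- an identity that holds in `ZM` is trivial or does not involve a variable as one of its sides -/
theorem of_sat_ZM (s t : Term) (h : ∀ B ∈ ZM.1, Sat B (s, t)) :
    s = t ∨ ((∀ n, s ≠ .var n) ∧ ∀ n, t ≠ .var n) := by
  have h0 : Sat zmTwo (s, t) := h zmTwo fun _ _ => rfl
  have hz : zmTwo ∈ ZM.1 := fun _ _ => rfl
  by_cases hs : ∀ n, s ≠ .var n
  · by_cases ht : ∀ n, t ≠ .var n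
    · exact Or.inr ⟨hs, ht⟩
    · push Not at ht
      obtain ⟨n, rfl⟩ := ht
      exact absurd ((eval_ZM hz s hs _).symm.trans (h0 fun _ => true)) Bool.false_ne_true
  · push Not at hs
    obtain ⟨n, rfl⟩ := hs
    by_cases ht : ∀ n, t ≠ .var n
    · exact absurd ((h0 fun _ => true).trans (eval_ZM hz t ht _)).symm Bool.false_ne_true
    · push Not at ht
      obtain ⟨m, rfl⟩ := ht
      left
      have h1 : (if n = n then true else false) = (if m = n then true else false) :=
        h0 fun k => if k = n then true else false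
      by_cases hmn : m = n
      · rw [hmn]
      · simp [hmn] at h1

theorem two_of_not_ZM (X : Variety) (h : ¬ ZM ≤ X) (A : IZ) (hA : A ∈ X.1) (a : A.carrier) :
    A.dd a = a := by
  obtain ⟨X, E, hE⟩ := X
  have h1 : ∃ B ∈ ZM.1, ∃ e ∈ E, ¬ Sat B e := by
    by_contra h2
    push Not at h2
    exact h fun B hB => (hE B).2 fun e he => h2 B hB e he
  obtain ⟨B, hB, ⟨s, t⟩, he, hne⟩ := h1
  have hsat : Sat A (s, t) := (hE A).1 hA _ he
  by_cases hs : ∀ n, s ≠ .var n
  · by_cases ht : ∀ n, t ≠ .var n
    · exfalso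
      apply hne
      intro v
      exact (eval_ZM hB s hs v).trans (eval_ZM hB t ht v).symm
    · push Not at ht
      obtain ⟨n, rfl⟩ := ht
      exact two_of_term A s hs (fun a => (hsat fun _ => a).symm) a
  · push Not at hs
    obtain ⟨n, rfl⟩ := hs
    by_cases ht : ∀ n, t ≠ .var n
    · exact two_of_term A t ht (fun a => hsat fun _ => a) a
    · push Not at ht
      obtain ⟨m, rfl⟩ := ht
      have hnm : n ≠ m := by
        rintro rfl
        exact hne fun v => rfl
      have h3 : ∀ a b : A.carrier, a = b := by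
        intro a b
        have := hsat fun k => if k = n then a else b
        simpa [Term.eval, hnm.symm] using this
      exact h3 _ _

theorem not_ZM_of_two (X : Variety) (h : ∀ A ∈ X.1, ∀ a : A.carrier, A.dd a = a) :
    ¬ ZM ≤ X := by
  intro h1
  have h2 : zmTwo ∈ ZM.1 := fun _ _ => rfl
  have h3 := h zmTwo (h1 h2) true
  exact Bool.false_ne_true h3

/-! ### `ZM` is neutral -/

/-- `x''` as a term -/
def Term.dd (s : Term) : Term := .imp (.imp s .zero) .zero

/-- an algebra of `ZM ∨ Z` that satisfies `x'' ≈ x` lies in `Z` -/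
theorem mem_of_dd (Z : Variety) (A : IZ) (hA : A ∈ (ZM ⊔ Z).1) (h : ∀ a : A.carrier, A.dd a = a) :
    A ∈ Z.1 := by
  obtain ⟨E, hE⟩ := Z.2
  rw [hE]
  rintro ⟨s, t⟩ he v
  have h1 : Sat A (s.dd, t.dd) := by
    apply hA
    · exact sat_ZM _ _ (fun n => by simp [Term.dd]) (fun n => by simp [Term.dd])
    · intro B hB v
      have h2 : s.eval B v = t.eval B v := (hE B).1 hB _ he v
      change B.dd (s.eval B v) = B.dd (t.eval B v)
      rw [h2]
  have h3 : A.dd (s.eval A v) = A.dd (t.eval A v) := h1 v
  rwa [h, h] at h3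

/-- the subalgebra of the elements `x''` -/
def ddAlg (A : IZ) (h : ∀ a b : A.carrier, A.dd (A.imp a b) = A.imp (A.dd a) (A.dd b)) : IZ where
  carrier := {a : A.carrier // A.dd a = a}
  imp a b := ⟨A.imp a.1 b.1, by rw [h, a.2, b.2]⟩
  zero := ⟨A.zero, A.ax0⟩
  ax a b c := Subtype.ext (A.ax a.1 b.1 c.1)
  ax0 := Subtype.ext A.ax0

theorem sat_ddAlg (A : IZ) (h : ∀ a b : A.carrier, A.dd (A.imp a b) = A.imp (A.dd a) (A.dd b))
    (e : Term × Term) (he : Sat A e) : Sat (ddAlg A h) e := by
  intro v
  apply Subtype.ext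
  have h1 := eval_hom (A := ddAlg A h) (B := A) (fun a => a.1) rfl (fun _ _ => rfl) v e.1
  have h2 := eval_hom (A := ddAlg A h) (B := A) (fun a => a.1) rfl (fun _ _ => rfl) v e.2
  exact h1.trans ((he _).trans h2.symm)

/-- membership in a variety passes to an algebra that satisfies at least as many identities -/
theorem mem_of_sat (Z : Variety) (A B : IZ) (hA : A ∈ Z.1) (h : ∀ e, Sat A e → Sat B e) :
    B ∈ Z.1 := by
  obtain ⟨E, hE⟩ := Z.2
  rw [hE] at hA ⊢
  exact fun e he => h e (hA e he)

theorem dist_aux (Y Z : Variety) (hY : ¬ ZM ≤ Y) (A : IZ) (h1 : A ∈ (ZM ⊔ Y).1)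
    (h2 : A ∈ (ZM ⊔ Z).1) : A ∈ (ZM ⊔ (Y ⊓ Z)).1 := by
  have hdd := two_of_not_ZM Y hY
  have hom : ∀ a b : A.carrier, A.dd (A.imp a b) = A.imp (A.dd a) (A.dd b) := by
    intro a b
    have h3 : Sat A (Term.dd (.imp (.var 0) (.var 1)),
        .imp (Term.dd (.var 0)) (Term.dd (.var 1))) := by
      apply h1
      · exact sat_ZM _ _ (fun n => by simp [Term.dd]) (fun n => by simp)
      · intro B hB v
        change B.dd (B.imp (v 0) (v 1)) = B.imp (B.dd (v 0)) (B.dd (v 1))
        rw [hdd B hB, hdd B hB, hdd B hB]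
    exact h3 fun n => if n = 0 then a else b
  have hn : ∀ s : Term, (∀ n, s ≠ .var n) → ∀ v, s.eval A v = A.dd (s.eval A v) := by
    intro s hs v
    have h3 : Sat A (s, s.dd) := by
      apply h1
      · exact sat_ZM _ _ hs (fun n => by simp [Term.dd])
      · intro B hB v
        exact (hdd B hB _).symm
    exact h3 v
  have hB : ∀ a : (ddAlg A hom).carrier, (ddAlg A hom).dd a = a := fun a => Subtype.ext a.2
  have hm : ddAlg A hom ∈ (Y ⊓ Z).1 := by
    constructor
    · exact mem_of_dd Y _ (mem_of_sat _ _ _ h1 (sat_ddAlg A hom)) hB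
    · exact mem_of_dd Z _ (mem_of_sat _ _ _ h2 (sat_ddAlg A hom)) hB
  rintro ⟨s, t⟩ h3 h4 v
  rcases of_sat_ZM s t h3 with rfl | ⟨hs, ht⟩
  · rfl
  · let w : ℕ → (ddAlg A hom).carrier := fun n => ⟨A.dd (v n), A.four (v n)⟩
    have h6 := congrArg Subtype.val (h4 _ hm w)
    have e1 : ∀ t : Term, (t.eval (ddAlg A hom) w).1 = A.dd (t.eval A v) := by
      intro t
      exact (eval_hom (A := ddAlg A hom) (B := A) (fun a => a.1) rfl (fun _ _ => rfl) w t).trans
        (eval_hom (A := A) (B := A) A.dd A.ax0 hom v t).symm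
    exact (hn s hs v).trans ((e1 s).symm.trans (h6.trans ((e1 t).trans (hn t ht v).symm)))

theorem ZM_dist (Y Z : Variety) : (Y ⊓ Z) ⊔ ZM = (Y ⊔ ZM) ⊓ (Z ⊔ ZM) := by
  rw [sup_comm, sup_comm Y, sup_comm Z]
  apply le_antisymm
  · exact le_inf (sup_le_sup le_rfl inf_le_left) (sup_le_sup le_rfl inf_le_right)
  · rintro A ⟨h1, h2⟩
    by_cases hY : ZM ≤ Y
    · by_cases hZ : ZM ≤ Z
      · rw [sup_eq_right.2 hY] at h1
        rw [sup_eq_right.2 hZ] at h2
        have : Y ⊓ Z ≤ ZM ⊔ (Y ⊓ Z) := le_sup_right
        exact this ⟨h1, h2⟩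
      · rw [inf_comm]
        exact dist_aux Z Y hZ A h2 h1
    · exact dist_aux Y Z hY A h1 h2

theorem ZM_prime (Y Z : Variety) (h : ZM ≤ Y ⊔ Z) : ZM ≤ Y ∨ ZM ≤ Z := by
  by_contra h1
  push Not at h1
  refine not_ZM_of_two (Y ⊔ Z) (fun A hA a => ?_) h
  have h2 := hA (Term.dd (.var 0), .var 0) (fun B hB v => two_of_not_ZM Y h1.1 B hB (v 0))
    (fun B hB v => two_of_not_ZM Z h1.2 B hB (v 0))
  exact h2 fun _ => a

theorem ZM_cancel (Y Z : Variety) (h1 : ZM ≤ Y ↔ ZM ≤ Z) (h2 : Y ⊔ ZM = Z ⊔ ZM) : Y = Z := by
  by_cases hY : ZM ≤ Y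
  · rw [← sup_eq_left.2 hY, h2, sup_eq_left.2 (h1.1 hY)]
  · have aux : ∀ Y Z : Variety, ¬ ZM ≤ Y → Y ⊔ ZM = Z ⊔ ZM → Y ≤ Z := by
      intro Y Z hY h2 A hA
      refine mem_of_dd Z A ?_ (two_of_not_ZM Y hY A hA)
      rw [sup_comm, ← h2]
      exact (le_sup_left : Y ≤ Y ⊔ ZM) hA
    exact le_antisymm (aux Y Z hY h2) (aux Z Y (fun h => hY (h1.2 h)) h2.symm)

theorem neutral_of {L : Type*} [Lattice L] (a : L)
    (hd : ∀ y z : L, (y ⊓ z) ⊔ a = (y ⊔ a) ⊓ (z ⊔ a))
    (hp : ∀ y z : L, a ≤ y ⊔ z → a ≤ y ∨ a ≤ z)
    (hc : ∀ y z : L, (a ≤ y ↔ a ≤ z) → y ⊔ a = z ⊔ a → y = z) : Neutral a := by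
  intro y z p hp' q hq r hr
  set u := y ⊔ a with hu
  set v := z ⊔ a with hv
  have hau : a ≤ u := le_sup_right
  have hav : a ≤ v := le_sup_right
  have hauv : a ≤ u ⊓ v := le_inf hau hav
  have hauv' : a ≤ u ⊔ v := hau.trans le_sup_left
  have i1 : u ⊓ v ≤ u := inf_le_left
  have i2 : u ⊓ v ≤ v := inf_le_right
  have i3 : u ≤ u ⊔ v := le_sup_left
  have i4 : v ≤ u ⊔ v := le_sup_right
  have i5 : u ⊓ v ≤ u ⊔ v := i1.trans i3
  have hD : ∀ p ∈ latticeClosure {a, y, z},
      p ⊔ a = a ∨ p ⊔ a = u ∨ p ⊔ a = v ∨ p ⊔ a = u ⊓ v ∨ p ⊔ a = u ⊔ v := by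
    have hs : IsSublattice {p : L |
        p ⊔ a = a ∨ p ⊔ a = u ∨ p ⊔ a = v ∨ p ⊔ a = u ⊓ v ∨ p ⊔ a = u ⊔ v} := by
      constructor
      · intro p hp q hq
        have e : p ⊔ q ⊔ a = (p ⊔ a) ⊔ (q ⊔ a) := by
          rw [sup_sup_sup_comm, sup_idem]
        simp only [Set.mem_ofPred_eq] at hp hq ⊢
        rw [e]
        rcases hp with h | h | h | h | h <;> rcases hq with h' | h' | h' | h' | h' <;>
          rw [h, h'] <;>
          simp only [sup_comm v u, sup_idem, sup_eq_left.2 hau, sup_eq_right.2 hau,
            sup_eq_left.2 hav, sup_eq_right.2 hav, sup_eq_left.2 hauv, sup_eq_right.2 hauv,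
            sup_eq_left.2 hauv', sup_eq_right.2 hauv', sup_eq_left.2 i1, sup_eq_right.2 i1,
            sup_eq_left.2 i2, sup_eq_right.2 i2, sup_eq_left.2 i3, sup_eq_right.2 i3,
            sup_eq_left.2 i4, sup_eq_right.2 i4, sup_eq_left.2 i5, sup_eq_right.2 i5, true_or,
            or_true]
      · intro p hp q hq
        simp only [Set.mem_ofPred_eq] at hp hq ⊢
        rw [hd]
        rcases hp with h | h | h | h | h <;> rcases hq with h' | h' | h' | h' | h' <;>
          rw [h, h'] <;>
          simp only [inf_comm v u, inf_idem, inf_eq_left.2 hau, inf_eq_right.2 hau,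
            inf_eq_left.2 hav, inf_eq_right.2 hav, inf_eq_left.2 hauv, inf_eq_right.2 hauv,
            inf_eq_left.2 hauv', inf_eq_right.2 hauv', inf_eq_left.2 i1, inf_eq_right.2 i1,
            inf_eq_left.2 i2, inf_eq_right.2 i2, inf_eq_left.2 i3, inf_eq_right.2 i3,
            inf_eq_left.2 i4, inf_eq_right.2 i4, inf_eq_left.2 i5, inf_eq_right.2 i5, true_or,
            or_true]
    have hsub : ({a, y, z} : Set L) ⊆ {p : L |
        p ⊔ a = a ∨ p ⊔ a = u ∨ p ⊔ a = v ∨ p ⊔ a = u ⊓ v ∨ p ⊔ a = u ⊔ v} := by
      rintro x (rfl | rfl | rfl)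
      · exact Or.inl (sup_idem _)
      · exact Or.inr (Or.inl rfl)
      · exact Or.inr (Or.inr (Or.inl rfl))
    intro p hp
    exact latticeClosure_min hsub hs hp
  apply hc
  · constructor
    · intro h
      rcases hp q r (h.trans inf_le_right) with h1 | h1
      · exact (le_inf (h.trans inf_le_left) h1).trans le_sup_left
      · exact (le_inf (h.trans inf_le_left) h1).trans le_sup_right
    · intro h
      exact h.trans le_inf_sup
  · have e : ∀ p q : L, p ⊔ q ⊔ a = (p ⊔ a) ⊔ (q ⊔ a) := fun p q => by
      rw [sup_sup_sup_comm, sup_idem]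
    rw [hd, e, e, hd, hd]
    rcases hD p hp' with h | h | h | h | h <;> rcases hD q hq with h' | h' | h' | h' | h' <;>
      rcases hD r hr with h'' | h'' | h'' | h'' | h'' <;>
      rw [h, h', h''] <;>
      simp only [inf_comm v u, sup_comm v u, sup_idem, sup_eq_left.2 hau, sup_eq_right.2 hau,
        sup_eq_left.2 hav, sup_eq_right.2 hav, sup_eq_left.2 hauv, sup_eq_right.2 hauv,
        sup_eq_left.2 hauv', sup_eq_right.2 hauv', sup_eq_left.2 i1, sup_eq_right.2 i1,
        sup_eq_left.2 i2, sup_eq_right.2 i2, sup_eq_left.2 i3, sup_eq_right.2 i3,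
        sup_eq_left.2 i4, sup_eq_right.2 i4, sup_eq_left.2 i5, sup_eq_right.2 i5,
        inf_idem, inf_eq_left.2 hau, inf_eq_right.2 hau,
        inf_eq_left.2 hav, inf_eq_right.2 hav, inf_eq_left.2 hauv, inf_eq_right.2 hauv,
        inf_eq_left.2 hauv', inf_eq_right.2 hauv', inf_eq_left.2 i1, inf_eq_right.2 i1,
        inf_eq_left.2 i2, inf_eq_right.2 i2, inf_eq_left.2 i3, inf_eq_right.2 i3,
        inf_eq_left.2 i4, inf_eq_right.2 i4, inf_eq_left.2 i5, inf_eq_right.2 i5]

theorem neutral_ZM : Neutral ZM := neutral_of ZM ZM_dist ZM_prime ZM_cancel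

/-! ### `SL` and `BA` are not neutral -/

/-- the variety defined by `x → y ≈ x → 0` and `(x → y) → z ≈ 0` -/
def W1 : Variety :=
  ⟨{A | (∀ a b : A.carrier, A.imp a b = A.imp a A.zero) ∧
      ∀ a b c : A.carrier, A.imp (A.imp a b) c = A.zero},
    {(.imp (.var 0) (.var 1), .imp (.var 0) .zero),
      (.imp (.imp (.var 0) (.var 1)) (.var 2), .zero)}, fun A => by
    constructor
    · rintro ⟨h1, h2⟩ e he
      simp only [Set.mem_insert_iff, Set.mem_singleton_iff] at he
      rcases he with rfl | rfl
      · intro v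
        exact h1 _ _
      · intro v
        exact h2 _ _ _
    · intro h
      refine ⟨fun a b => ?_, fun a b c => ?_⟩
      · exact h _ (Or.inl rfl) (fun n => if n = 0 then a else b)
      · exact h _ (Or.inr rfl) (fun n => if n = 0 then a else if n = 1 then b else c)⟩

/-- the variety defined by `x' ≈ x'''` -/
def W2 : Variety :=
  ⟨{A | ∀ a : A.carrier, A.imp a A.zero = A.dd (A.imp a A.zero)},
    {(.imp (.var 0) .zero, Term.dd (.imp (.var 0) .zero))}, fun A => by
    constructor
    · intro h e he
      rw [Set.mem_singleton_iff] at he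
      subst he
      intro v
      exact h _
    · intro h a
      exact h _ rfl (fun _ => a)⟩

/-- the three-element member of `W1` -/
def three : IZ where
  carrier := Fin 3
  imp a _ := if a = 2 then 1 else 0
  zero := 0
  ax := by decide
  ax0 := by decide

theorem three_mem : three ∈ W1.1 := by
  constructor
  · intro a b
    rfl
  · change ∀ a b c : Fin 3, (if (if a = 2 then (1 : Fin 3) else 0) = 2 then (1 : Fin 3) else 0) = 0
    decide

/-- members of `X ∨ (W1 ∧ W2)` satisfy `x → y ≈ (x → y)''` if the members of `X` do -/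
theorem closed_of_mem (X : Variety) (hX : ∀ A ∈ X.1, ∀ a b : A.carrier,
    A.imp a b = A.dd (A.imp a b)) (A : IZ) (hA : A ∈ (X ⊔ (W1 ⊓ W2)).1) (a b : A.carrier) :
    A.imp a b = A.dd (A.imp a b) := by
  have h : Sat A (.imp (.var 0) (.var 1), Term.dd (.imp (.var 0) (.var 1))) := by
    apply hA
    · intro B hB v
      exact hX B hB _ _
    · rintro B ⟨⟨h1, h2⟩, h3⟩ v
      change B.imp (v 0) (v 1) = B.dd (B.imp (v 0) (v 1))
      rw [h1 (v 0) (v 1)]
      exact h3 (v 0)
  exact h fun n => if n = 0 then a else b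

theorem not_neutral_of (X : Variety) (hX : ∀ A ∈ X.1, ∀ a b : A.carrier,
    A.imp a b = A.dd (A.imp a b)) (hX2 : X ≤ W2) (A : IZ) (hA : A ∈ (X ⊔ W1).1)
    (hA2 : A ∈ W2.1) (a b : A.carrier) (hab : A.imp a b ≠ A.dd (A.imp a b)) : ¬ Neutral X := by
  intro h
  have h1 := h W1 W2 W2 (subset_latticeClosure (by simp)) X (subset_latticeClosure (by simp))
    W1 (subset_latticeClosure (by simp))
  have h2 : A ∈ (W2 ⊓ (X ⊔ W1)).1 := ⟨hA2, hA⟩
  rw [h1, inf_eq_right.2 hX2, inf_comm W2 W1] at h2
  exact hab (closed_of_mem X hX A h2 a b)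

/-- the two-element semilattice -/
def slTwo : IZ where
  carrier := Bool
  imp a b := a && b
  zero := true
  ax := by decide
  ax0 := by decide

theorem slTwo_mem : slTwo ∈ SL.1 := by
  refine ⟨?_, ?_, ?_⟩
  · change ∀ a b c : Bool, ((a && b) && c) = (a && (b && c))
    decide
  · change ∀ a : Bool, (a && a) = a
    decide
  · change ∀ a b : Bool, (a && b) = (b && a)
    decide

/-- the operation of `slFour` -/
def slOp (a b : Fin 4) : Fin 4 :=
  if a = 0 then (if b = 0 ∨ b = 1 then 0 else 3) else
    if a = 1 then (if b = 0 ∨ b = 1 then 0 else 2) else 3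

/-- the operation of `baFour` -/
def baOp (a b : Fin 4) : Fin 4 :=
  if a = 0 then 1 else if a = 2 then (if b = 0 then 0 else 3) else (if b = 0 then 0 else 1)

/-- the algebra for `SL`: the elements are `0`, `x = 1`, `W = 2`, `U = 3` -/
def slFour : IZ where
  carrier := Fin 4
  imp := slOp
  zero := 0
  ax := by decide
  ax0 := by decide

/-- the algebra for `BA`: the elements are `0`, `1`, `x = 2`, `W = 3` -/
def baFour : IZ where
  carrier := Fin 4
  imp := baOp
  zero := 0
  ax := by decide
  ax0 := by decide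

/-- a map from the product of two algebras that is a homomorphism on a subalgebra, with a section -/
theorem sat_of_product (A B C : IZ) (S : A.carrier → B.carrier → Bool)
    (h : A.carrier → B.carrier → C.carrier) (h0 : S A.zero B.zero = true)
    (h0' : h A.zero B.zero = C.zero)
    (hS : ∀ a b c d, S a b = true → S c d = true → S (A.imp a c) (B.imp b d) = true ∧
      h (A.imp a c) (B.imp b d) = C.imp (h a b) (h c d))
    (s1 : C.carrier → A.carrier) (s2 : C.carrier → B.carrier)
    (hs : ∀ c, S (s1 c) (s2 c) = true ∧ h (s1 c) (s2 c) = c) (e : Term × Term) (hA : Sat A e)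
    (hB : Sat B e) : Sat C e := by
  intro v
  have key : ∀ t : Term, S (t.eval A fun n => s1 (v n)) (t.eval B fun n => s2 (v n)) = true ∧
      h (t.eval A fun n => s1 (v n)) (t.eval B fun n => s2 (v n)) = t.eval C v := by
    intro t
    induction t with
    | var n => exact hs (v n)
    | zero => exact ⟨h0, h0'⟩
    | imp s t ihs iht =>
      obtain ⟨h1, h2⟩ := hS _ _ _ _ ihs.1 iht.1
      refine ⟨h1, h2.trans ?_⟩
      rw [ihs.2, iht.2]
      rfl
  rw [← (key e.1).2, ← (key e.2).2, hA, hB]

/-- the subalgebra for `SL` -/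
def slS (a : Bool) (b : Fin 3) : Bool := a || !(decide (b = 2))

/-- the map for `SL` -/
def slH (a : Bool) (b : Fin 3) : Fin 4 :=
  if a = true then (if b = 2 then 1 else 0) else (if b = 1 then 2 else 3)

/-- the section for `SL`, first component -/
def slS1 (c : Fin 4) : Bool := decide (c = 0) || decide (c = 1)

/-- the section for `SL` and `BA`, second component -/
def slS2 (c : Fin 4) : Fin 3 := if c = 1 then 2 else if c = 2 then 1 else 0

theorem slFour_mem : slFour ∈ (SL ⊔ W1).1 := by
  intro e h1 h2
  refine sat_of_product slTwo three slFour slS slH ?_ ?_ ?_ slS1 slS2 ?_ e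
    (h1 _ slTwo_mem) (h2 _ three_mem)
  · rfl
  · rfl
  · change ∀ (a : Bool) (b : Fin 3) (c : Bool) (d : Fin 3), slS a b = true → slS c d = true →
      slS (a && c) (if b = 2 then 1 else 0) = true ∧
        slH (a && c) (if b = 2 then 1 else 0) = slOp (slH a b) (slH c d)
    decide
  · change ∀ c : Fin 4, slS (slS1 c) (slS2 c) = true ∧ slH (slS1 c) (slS2 c) = c
    decide

/-- the subalgebra for `BA` -/
def baS (a : Bool) (b : Fin 3) : Bool := a || !(decide (b = 2))

/-- the map for `BA` -/
def baH (a : Bool) (b : Fin 3) : Fin 4 :=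
  if a = false then 0 else if b = 0 then 1 else if b = 1 then 3 else 2

/-- the section for `BA`, first component -/
def baS1 (c : Fin 4) : Bool := !decide (c = 0)

/-- the section for `BA`, second component -/
def baS2 (c : Fin 4) : Fin 3 := if c = 2 then 2 else if c = 3 then 1 else 0

theorem boolTwo_mem : boolTwo ∈ BA.1 := by
  apply isBoolean_of_sat
  exact fun _ h => h

theorem baFour_mem : baFour ∈ (BA ⊔ W1).1 := by
  intro e h1 h2
  refine sat_of_product boolTwo three baFour baS baH ?_ ?_ ?_ baS1 baS2 ?_ e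
    (h1 _ boolTwo_mem) (h2 _ three_mem)
  · rfl
  · rfl
  · change ∀ (a : Bool) (b : Fin 3) (c : Bool) (d : Fin 3), baS a b = true → baS c d = true →
      baS (!a || c) (if b = 2 then 1 else 0) = true ∧
        baH (!a || c) (if b = 2 then 1 else 0) = baOp (baH a b) (baH c d)
    decide
  · change ∀ c : Fin 4, baS (baS1 c) (baS2 c) = true ∧ baH (baS1 c) (baS2 c) = c
    decide

theorem not_neutral_SL : ¬ Neutral SL := by
  have hid : ∀ A ∈ SL.1, ∀ a : A.carrier, A.imp a A.zero = a := by
    rintro A ⟨h1, h2, h3⟩ a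
    have h4 := A.ax a a a
    have h5 : A.imp A.zero A.zero = A.zero := h2 _
    have e2 : A.imp (A.imp a A.zero) A.zero = A.imp a A.zero := by rw [h1, h5]
    simp only [h2] at h4
    rw [h3 a A.zero] at e2 h4
    rw [h3 a A.zero]
    have e3 : A.imp (A.imp A.zero a) a = A.imp A.zero a := by rw [h1, h2]
    rw [e3, h2, e2] at h4
    exact h4.symm
  refine not_neutral_of SL ?_ ?_ slFour slFour_mem ?_ (1 : Fin 4) (2 : Fin 4) ?_
  · intro A hA a b
    change _ = A.imp (A.imp (A.imp a b) A.zero) A.zero
    rw [hid A hA, hid A hA]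
  · intro A hA a
    change _ = A.imp (A.imp (A.imp a A.zero) A.zero) A.zero
    rw [hid A hA, hid A hA, hid A hA]
  · change ∀ a : Fin 4, slOp a 0 = slOp (slOp (slOp a 0) 0) 0
    decide
  · change slOp 1 2 ≠ slOp (slOp (slOp 1 2) 0) 0
    decide

theorem not_neutral_BA : ¬ Neutral BA := by
  have hdd : ∀ A ∈ BA.1, ∀ a : A.carrier, A.dd a = a := by
    intro A hA a
    have h := sat_of_isBoolean A hA (Term.dd (.var 0), .var 0) (by
      intro v
      change (!(!(v 0) || false) || false) = v 0
      cases v 0 <;> rfl)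
    exact h fun _ => a
  refine not_neutral_of BA ?_ ?_ baFour baFour_mem ?_ (2 : Fin 4) (1 : Fin 4) ?_
  · intro A hA a b
    rw [hdd A hA]
  · intro A hA a
    rw [hdd A hA]
  · change ∀ a : Fin 4, baOp a 0 = baOp (baOp (baOp a 0) 0) 0
    decide
  · change baOp 2 1 ≠ baOp (baOp (baOp 2 1) 0) 0
    decide

/-- **Neutrality of the atoms.**  In the lattice of the varieties of implication zroupoids, the atom
`ZM` is a neutral element, and the atoms `SL` and `BA` are not neutral. -/
theorem result : Neutral ZM ∧ ¬ Neutral SL ∧ ¬ Neutral BA :=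
  ⟨neutral_ZM, not_neutral_SL, not_neutral_BA⟩

end Pool.Agent.Results.MP_be65b5_al.NeutralAtoms
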